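import Pool.Agent.W809.DN.Stms

set_option autoImplicit false
set_option linter.all false

open Finset Filter Topology

namespace Pool.Agent.W347.DN

open Pool.Agent.W809.DN

theorem ee_eq (x : ℝ) : ee x = ((Real.cos (2 * Real.pi * x) : ℝ) : ℂ) +
    ((Real.sin (2 * Real.pi * x) : ℝ) : ℂ) * Complex.I := by
  unfold ee
  rw [show (2 * (Real.pi : ℂ) * Complex.I * (x : ℂ)) = ((2 * Real.pi * x : ℝ) : ℂ) * Complex.I by
    push_cast; ring, Complex.exp_mul_I, Complex.ofReal_cos, Complex.ofReal_sin]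

theorem cos_nd (x : ℝ) : 8 * nd x ^ 2 ≤ 1 - Real.cos (2 * Real.pi * x) := by
  have h1 : Real.cos (2 * Real.pi * x) = Real.cos (2 * Real.pi * |x - round x|) := by
    have e : 2 * Real.pi * x = 2 * Real.pi * (x - round x) + (round x : ℤ) * (2 * Real.pi) := by ring
    rw [e, Real.cos_add_int_mul_two_pi]
    rcases abs_cases (x - round x) with ⟨h, _⟩ | ⟨h, _⟩
    · rw [h]
    · rw [h, mul_neg, Real.cos_neg]
  rw [h1]
  show 8 * nd x ^ 2 ≤ 1 - Real.cos (2 * Real.pi * nd x)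
  have h0 := nd_nonneg x
  have h2 := nd_le_half x
  have hpi := Real.pi_pos
  have h3 : 2 / Real.pi * (Real.pi * nd x) ≤ Real.sin (Real.pi * nd x) :=
    Real.mul_le_sin (by positivity) (by nlinarith)
  have h4 : 2 / Real.pi * (Real.pi * nd x) = 2 * nd x := by field_simp
  rw [h4] at h3
  have h5 : Real.cos (2 * Real.pi * nd x) = 1 - 2 * Real.sin (Real.pi * nd x) ^ 2 := by
    rw [show 2 * Real.pi * nd x = 2 * (Real.pi * nd x) by ring, Real.cos_two_mul,
      ← Real.sin_sq_add_cos_sq (Real.pi * nd x)]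
    ring
  rw [h5]
  nlinarith

theorem factor (d x : ℝ) (hd0 : 0 ≤ d) (hd : d ≤ 1 / 2) :
    ‖(1 - d + d * ee x : ℂ)‖ ≤ Real.exp (-(4 * (d * nd x ^ 2))) := by
  rw [← pow_le_pow_iff_left₀ (norm_nonneg _) (Real.exp_pos _).le two_ne_zero]
  have h1 : ‖(1 - d + d * ee x : ℂ)‖ ^ 2 =
      1 - 2 * d * (1 - d) * (1 - Real.cos (2 * Real.pi * x)) := by
    rw [← Complex.normSq_eq_norm_sq, ee_eq, Complex.normSq_apply]
    simp only [Complex.add_re, Complex.sub_re, Complex.one_re, Complex.ofReal_re, Complex.mul_re,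
      Complex.ofReal_im, Complex.add_im, Complex.sub_im, Complex.one_im, Complex.mul_im,
      Complex.I_re, Complex.I_im]
    have := Real.sin_sq_add_cos_sq (2 * Real.pi * x)
    ring_nf
    ring_nf at this
    linear_combination d ^ 2 * this
  rw [h1, ← Real.exp_nat_mul]
  have h2 := cos_nd x
  have h3 := Real.add_one_le_exp (((2 : ℕ) : ℝ) * -(4 * (d * nd x ^ 2)))
  refine le_trans ?_ h3
  push_cast
  have h4 : 0 ≤ nd x ^ 2 := sq_nonneg _
  have h5 : d ≤ 2 * d * (1 - d) := by nlinarith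
  have h6 : d * (8 * nd x ^ 2) ≤ 2 * d * (1 - d) * (1 - Real.cos (2 * Real.pi * x)) :=
    mul_le_mul h5 h2 (by positivity) (by nlinarith)
  linarith

theorem chr : S_CHR := by
  intro δ hδ S θ
  simp_rw [ee_sum]
  rw [EE_prod, norm_prod, Finset.mul_sum, ← Finset.sum_neg_distrib, Real.exp_sum]
  exact Finset.prod_le_prod (fun s _ => norm_nonneg _) fun s _ => factor _ _ (hδ s).1 (hδ s).2

theorem nd_mul (r : ℕ) (hr : 2 ≤ r) (x : ℝ) (hx : nd x < 1 / (2 * (r : ℝ))) :
    (r : ℝ) * nd x ≤ nd ((r : ℝ) * x) := by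
  have hr0 : (0 : ℝ) < r := by
    have : 0 < r := by omega
    exact_mod_cast this
  have h1 : (r : ℝ) * nd x < 1 / 2 := by
    rw [lt_div_iff₀ (by positivity)] at hx
    linarith
  have h2 : |(r : ℝ) * x - r * round x| = r * nd x := by
    rw [← mul_sub, abs_mul, abs_of_pos hr0]
    rfl
  by_cases hk : round ((r : ℝ) * x) = (r : ℤ) * round x
  · unfold nd
    rw [hk]
    push_cast
    rw [h2]
    exact le_rfl
  · have h3 : (1 : ℝ) ≤ |((round ((r : ℝ) * x) : ℤ) : ℝ) - (((r : ℤ) * round x : ℤ) : ℝ)| := by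
      have h4 : (1 : ℤ) ≤ |round ((r : ℝ) * x) - (r : ℤ) * round x| :=
        Int.one_le_abs (sub_ne_zero.mpr hk)
      have h5 : ((1 : ℤ) : ℝ) ≤ ((|round ((r : ℝ) * x) - (r : ℤ) * round x| : ℤ) : ℝ) := by
        exact_mod_cast h4
      push_cast at h5 ⊢
      exact h5
    have h6 : |((round ((r : ℝ) * x) : ℤ) : ℝ) - (((r : ℤ) * round x : ℤ) : ℝ)| ≤
        |(r : ℝ) * x - round ((r : ℝ) * x)| + |(r : ℝ) * x - r * round x| := by
      rw [abs_sub_comm ((r : ℝ) * x) ((round ((r : ℝ) * x) : ℤ) : ℝ)]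
      have := abs_sub_le ((round ((r : ℝ) * x) : ℤ) : ℝ) ((r : ℝ) * x) (((r : ℤ) * round x : ℤ) : ℝ)
      push_cast at this ⊢
      exact this
    rw [h2] at h6
    unfold nd
    unfold nd at h1 h6
    linarith

theorem blk : S_BLK := by
  intro r L s0 θ hr hL hLs hθ hnd
  by_contra hcon
  push Not at hcon
  have hr0 : (0 : ℝ) < r := by
    have : 0 < r := by omega
    exact_mod_cast this
  have key : ∀ i : ℕ, i ≤ L - 1 → (r : ℝ) ^ i * nd (θ s0) ≤ nd (θ (s0 - i)) := by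
    intro i
    induction i with
    | zero => intro _; simp
    | succ i ih =>
      intro hi
      have h1 := ih (by omega)
      have h2 := hcon (s0 - i) (by omega) (by omega)
      have h3 := nd_mul r hr _ h2
      have h4 : θ (s0 - (i + 1)) = (r : ℝ) * θ (s0 - i) := by
        have h5 := hθ (s0 - (i + 1))
        have h6 : s0 - (i + 1) + 1 = s0 - i := by omega
        rw [h6] at h5
        exact h5
      rw [h4]
      calc (r : ℝ) ^ (i + 1) * nd (θ s0) = r * (r ^ i * nd (θ s0)) := by ring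
        _ ≤ r * nd (θ (s0 - i)) := mul_le_mul_of_nonneg_left h1 hr0.le
        _ ≤ _ := h3
  have h1 := key (L - 1) le_rfl
  have h2 := hcon (s0 - (L - 1)) (by omega) (by omega)
  have h3 : (r : ℝ) ^ (L - 1) * (((r : ℝ)⁻¹) ^ L / 2) ≤ (r : ℝ) ^ (L - 1) * nd (θ s0) :=
    mul_le_mul_of_nonneg_left hnd (by positivity)
  have h4 : (r : ℝ) ^ (L - 1) * (((r : ℝ)⁻¹) ^ L / 2) = 1 / (2 * (r : ℝ)) := by
    obtain ⟨K, rfl⟩ : ∃ K, L = K + 1 := ⟨L - 1, by omega⟩
    have : K + 1 - 1 = K := by omega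
    rw [this, inv_pow]
    field_simp
    ring
  linarith

end Pool.Agent.W347.DN
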